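import Mathlib

/-!
# Combinatorial core for monotone non-homotopic drawings

Codes of monotone curves relative to vertices `0, 1, 2, …` and a Sauer–Shelah type induction.
-/

set_option autoImplicit false

namespace Pool.Agent.R156.MonoComb

open Finset

/-- `Ch d c N s`: there are positions `p₁ < … < p_c < N` at which the signs of `d` alternate, the
last sign being `s` (`s = 1` or `s = -1`). -/
def Ch (d : ℕ → ℤ) : ℕ → ℕ → ℤ → Prop
  | 0, _, _ => True
  | (c + 1), N, s => ∃ p < N, 0 < s * d p ∧ Ch d c p (-s)

theorem Ch.mono {d : ℕ → ℤ} : ∀ {c N N' : ℕ} {s : ℤ}, Ch d c N s → N ≤ N' → Ch d c N' s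
  | 0, _, _, _, _, _ => trivial
  | _ + 1, _, _, _, ⟨p, h1, h2, h3⟩, h => ⟨p, lt_of_lt_of_le h1 h, h2, h3⟩

theorem Ch.congr {d d' : ℕ → ℤ} : ∀ {c N : ℕ} {s : ℤ}, (∀ p < N, d p = d' p) → Ch d c N s →
    Ch d' c N s
  | 0, _, _, _, _ => trivial
  | _ + 1, _, _, h, ⟨p, h1, h2, h3⟩ =>
    ⟨p, h1, by rw [← h p h1]; exact h2, Ch.congr (fun q hq => h q (lt_trans hq h1)) h3⟩

/-- The state of the curve with start `i` and set `S` of vertices passed above. -/
def st (i : ℕ) (S : Finset ℕ) (p : ℕ) : ℤ := if p = i then 0 else if p ∈ S then 1 else -1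

/-- Comparison of two rays (curves starting at `a.1` and going on to the right). -/
def dR (a b : ℕ × Finset ℕ) (p : ℕ) : ℤ :=
  if a.1 ≤ p ∧ b.1 ≤ p then st a.1 a.2 p - st b.1 b.2 p else 0

theorem dR_neg (a b : ℕ × Finset ℕ) (p : ℕ) : dR b a p = - dR a b p := by
  unfold dR
  by_cases h : a.1 ≤ p ∧ b.1 ≤ p
  · rw [if_pos h, if_pos h.symm]; ring
  · rw [if_neg h, if_neg (fun h' => h h'.symm)]; ring

theorem Ch.neg {d d' : ℕ → ℤ} : ∀ {c N : ℕ} {s : ℤ}, (∀ p < N, d' p = - d p) → Ch d c N s →
    Ch d' c N (-s)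
  | 0, _, _, _, _ => trivial
  | _ + 1, _, s, h, ⟨p, h1, h2, h3⟩ =>
    ⟨p, h1, by rw [h p h1]; linarith [neg_mul_neg s (d p)],
      Ch.neg (fun q hq => h q (lt_trans hq h1)) h3⟩

/-- Valid codes of rays on the vertices `0, …, m - 1`. -/
def RayOK (m : ℕ) (a : ℕ × Finset ℕ) : Prop := a.1 < m ∧ ∀ p ∈ a.2, a.1 < p ∧ p < m

/-- No alternating chain of length `c` for two different members. -/
def RayFam (m c : ℕ) (F : Finset (ℕ × Finset ℕ)) : Prop :=
  (∀ a ∈ F, RayOK m a) ∧
    ∀ a ∈ F, ∀ b ∈ F, a ≠ b → ¬ Ch (dR a b) c m 1 ∧ ¬ Ch (dR a b) c m (-1)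

theorem exists_diff {m : ℕ} {a b : ℕ × Finset ℕ} (ha : RayOK m a) (hb : RayOK m b)
    (hab : a ≠ b) : ∃ p < m, dR a b p ≠ 0 := by
  obtain ⟨i, S⟩ := a
  obtain ⟨j, T⟩ := b
  simp only [RayOK] at ha hb
  rcases lt_trichotomy i j with h | h | h
  · refine ⟨j, hb.1, ?_⟩
    simp only [dR, st]
    rw [if_pos ⟨h.le, le_rfl⟩, if_neg (by omega)]
    split_ifs <;> simp
  · subst h
    have hST : S ≠ T := fun h => hab (by rw [h])
    have : ∃ p, ¬ (p ∈ S ↔ p ∈ T) := by
      by_contra hc
      push Not at hc
      exact hST (Finset.ext hc)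
    obtain ⟨p, hp⟩ := this
    have hp' : (p ∈ S ∧ p ∉ T) ∨ (p ∉ S ∧ p ∈ T) := by tauto
    rcases hp' with ⟨h1, h2⟩ | ⟨h1, h2⟩
    · have := ha.2 p h1
      refine ⟨p, this.2, ?_⟩
      simp only [dR, st]
      rw [if_pos ⟨this.1.le, this.1.le⟩, if_neg (by omega), if_pos h1, if_neg (by omega), if_neg h2]
      norm_num
    · have := hb.2 p h2
      refine ⟨p, this.2, ?_⟩
      simp only [dR, st]
      rw [if_pos ⟨this.1.le, this.1.le⟩, if_neg (by omega), if_neg h1, if_neg (by omega), if_pos h2]
      norm_num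
  · refine ⟨i, ha.1, ?_⟩
    simp only [dR, st]
    have hne : i ≠ j := by omega
    rw [if_pos ⟨le_rfl, h.le⟩]
    simp only [hne, if_true, if_false]
    split_ifs <;> simp

/-- Bound for families of rays. -/
def gb : ℕ → ℕ → ℕ
  | 0, _ => 0
  | (m + 1), c => 2 * (∑ t ∈ range c, m.choose t) - 1

theorem gb_succ (m c : ℕ) (hc : 1 ≤ c) :
    gb (m + 1) c + 1 = 2 * ∑ t ∈ range c, m.choose t := by
  have : 1 ≤ ∑ t ∈ range c, m.choose t := by
    calc 1 = m.choose 0 := by simp
      _ ≤ _ := Finset.single_le_sum (f := fun t => m.choose t) (fun _ _ => Nat.zero_le _)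
        (Finset.mem_range.mpr (by omega))
  simp only [gb]
  omega

theorem gb_one (m : ℕ) : gb (m + 1) 1 = 1 := by
  simp [gb]

theorem sum_choose_succ (m c : ℕ) :
    ∑ t ∈ range (c + 1), (m + 1).choose t =
      ∑ t ∈ range (c + 1), m.choose t + ∑ t ∈ range c, m.choose t := by
  rw [Finset.sum_range_succ' (fun t => (m + 1).choose t), Finset.sum_range_succ' (fun t => m.choose t)]
  simp only [Nat.choose_succ_succ, Nat.choose_zero_right, Finset.sum_add_distrib]
  ring

theorem gb_rec (m c : ℕ) (hc : 1 ≤ c) : 1 + gb m (c + 1) + gb m c ≤ gb (m + 1) (c + 1) := by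
  have h1 := gb_succ m (c + 1) (by omega)
  rcases m with _ | m
  · simp only [gb] at *
    have : ∑ t ∈ range (c + 1), (0 : ℕ).choose t = 1 := by
      rw [Finset.sum_range_succ']; simp
    omega
  · have h2 := gb_succ m (c + 1) (by omega)
    have h3 := gb_succ m c hc
    rw [sum_choose_succ] at h1
    omega

/-- Forget the last vertex. -/
def er (m : ℕ) (a : ℕ × Finset ℕ) : ℕ × Finset ℕ := (a.1, a.2.erase m)

theorem dR_er {m : ℕ} (a b : ℕ × Finset ℕ) {p : ℕ} (hp : p < m) :
    dR (er m a) (er m b) p = dR a b p := by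
  simp only [dR, er, st, Finset.mem_erase]
  have : p ≠ m := by omega
  simp only [ne_eq, this, not_false_eq_true, true_and]

theorem dR_er_left {m : ℕ} (a b : ℕ × Finset ℕ) {p : ℕ} (hp : p < m) :
    dR (er m a) b p = dR a b p := by
  simp only [dR, er, st, Finset.mem_erase]
  have : p ≠ m := by omega
  simp only [ne_eq, this, not_false_eq_true, true_and]

theorem ray_bound : ∀ (m c : ℕ), 1 ≤ c → ∀ F : Finset (ℕ × Finset ℕ), RayFam m c F →
    F.card ≤ gb m c := by
  intro m
  induction m with
  | zero =>
    intro c _ F hF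
    have : F = ∅ := by
      by_contra h
      obtain ⟨a, ha⟩ := Finset.nonempty_iff_ne_empty.mpr h
      exact absurd (hF.1 a ha).1 (by omega)
    subst this
    simp
  | succ m ih =>
    intro c hc F hF
    rcases Nat.lt_or_ge 1 c with hc1 | hc1
    swap
    · -- `c = 1`
      have hc' : c = 1 := by omega
      subst hc'
      rw [gb_one]
      rw [Finset.card_le_one]
      intro a ha b hb
      by_contra hab
      obtain ⟨p, hp, hne⟩ := exists_diff (hF.1 a ha) (hF.1 b hb) hab
      obtain ⟨h1, h2⟩ := hF.2 a ha b hb hab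
      rcases lt_or_gt_of_ne hne with h | h
      · exact h2 ⟨p, hp, by linarith, trivial⟩
      · exact h1 ⟨p, hp, by linarith, trivial⟩
    · obtain ⟨c, rfl⟩ : ∃ c', c = c' + 1 := ⟨c - 1, by omega⟩
      have hc0 : 1 ≤ c := by omega
      classical
      -- the ray which starts at the last vertex
      let F0 := F.filter (fun a => a.1 = m)
      let F1 := F.filter (fun a => a.1 ≠ m)
      have hF0 : F0.card ≤ 1 := by
        rw [Finset.card_le_one]
        intro a ha b hb
        simp only [F0, Finset.mem_filter] at ha hb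
        have e : ∀ a ∈ F, a.1 = m → a.2 = ∅ := by
          intro a ha h
          by_contra hne
          obtain ⟨p, hp⟩ := Finset.nonempty_iff_ne_empty.mpr hne
          have := (hF.1 a ha).2 p hp
          omega
        exact Prod.ext (ha.2.trans hb.2.symm) ((e a ha.1 ha.2).trans (e b hb.1 hb.2).symm)
      have hsplit : F.card = F0.card + F1.card := by
        simp only [F0, F1]
        exact (Finset.card_filter_add_card_filter_not (s := F) (fun a => a.1 = m)).symm
      let U := F1.filter (fun a => m ∉ a.2)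
      let W := (F1.filter (fun a => m ∈ a.2)).image (er m)
      have hU : ∀ a ∈ U, er m a = a := by
        intro a ha
        simp only [U, Finset.mem_filter] at ha
        simp only [er, Finset.erase_eq_of_notMem ha.2]
      have hWcard : W.card = (F1.filter (fun a => m ∈ a.2)).card := by
        apply Finset.card_image_of_injOn
        intro a ha b hb hab
        simp only [Finset.coe_filter, Set.mem_ofPred_eq] at ha hb
        simp only [er, Prod.mk.injEq] at hab
        refine Prod.ext hab.1 ?_
        rw [← Finset.insert_erase ha.2, ← Finset.insert_erase hb.2, hab.2]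
      have hF1card : F1.card = U.card + W.card := by
        rw [hWcard, add_comm]
        exact (Finset.card_filter_add_card_filter_not (s := F1) (fun a => m ∈ a.2)).symm
      have hui : U.card + W.card = (U ∪ W).card + (U ∩ W).card :=
        (Finset.card_union_add_card_inter U W).symm
      -- membership
      have hPmem : ∀ p ∈ U ∪ W, ∃ a ∈ F, a.1 ≠ m ∧ er m a = p := by
        intro p hp
        rcases Finset.mem_union.mp hp with h | h
        · refine ⟨p, ?_, ?_, hU p h⟩
          · simp only [U, F1, Finset.mem_filter] at h; exact h.1.1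
          · simp only [U, F1, Finset.mem_filter] at h; exact h.1.2
        · obtain ⟨a, ha, rfl⟩ := Finset.mem_image.mp h
          simp only [F1, Finset.mem_filter] at ha
          exact ⟨a, ha.1.1, ha.1.2, rfl⟩
      have hok : ∀ a ∈ F, a.1 ≠ m → RayOK m (er m a) := by
        intro a ha hne
        have h := hF.1 a ha
        refine ⟨?_, ?_⟩
        · have := h.1
          simp only [er]
          omega
        · intro p hp
          simp only [er, Finset.mem_erase] at hp ⊢
          have := h.2 p hp.2
          omega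
      have hP : RayFam m (c + 1) (U ∪ W) := by
        refine ⟨?_, ?_⟩
        · intro p hp
          obtain ⟨a, ha, hne, rfl⟩ := hPmem p hp
          exact hok a ha hne
        · intro p hp q hq hpq
          obtain ⟨a, ha, -, rfl⟩ := hPmem p hp
          obtain ⟨b, hb, -, rfl⟩ := hPmem q hq
          have hab : a ≠ b := fun h => hpq (by rw [h])
          obtain ⟨h1, h2⟩ := hF.2 a ha b hb hab
          refine ⟨fun h => h1 ?_, fun h => h2 ?_⟩
          · exact (h.congr (fun p hp => dR_er a b hp)).mono (Nat.le_succ m)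
          · exact (h.congr (fun p hp => dR_er a b hp)).mono (Nat.le_succ m)
      have hD : RayFam m c (U ∩ W) := by
        have key : ∀ p ∈ U ∩ W, ∀ q ∈ U ∩ W, p ≠ q → ¬ Ch (dR p q) c m 1 := by
          intro p hp q hq hpq hch
          -- `p` is above `q` at the last position: take `p` below `m` and `q` above `m`
          obtain ⟨hpU, -⟩ := Finset.mem_inter.mp hp
          obtain ⟨-, hqW⟩ := Finset.mem_inter.mp hq
          obtain ⟨b, hb, rfl⟩ := Finset.mem_image.mp hqW
          simp only [F1, Finset.mem_filter] at hb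
          simp only [U, F1, Finset.mem_filter] at hpU
          have hpb : p ≠ b := by
            intro h
            rw [h] at hpU
            exact hpU.2 hb.2
          refine (hF.2 p hpU.1.1 b hb.1.1 hpb).2 ⟨m, by omega, ?_, ?_⟩
          · have h1 := (hF.1 p hpU.1.1).1
            have h2 := (hF.1 b hb.1.1).1
            simp only [dR, st]
            rw [if_pos ⟨by omega, by omega⟩, if_neg (fun h => hpU.1.2 h.symm), if_neg hpU.2,
              if_neg (fun h => hb.1.2 h.symm), if_pos hb.2]
            norm_num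
          · rw [neg_neg]
            refine hch.congr (fun q hq => ?_)
            simp only [dR, er, st, Finset.mem_erase]
            have : q ≠ m := by omega
            simp only [ne_eq, this, not_false_eq_true, true_and]
        refine ⟨?_, ?_⟩
        · intro p hp
          obtain ⟨a, ha, hne, rfl⟩ := hPmem p (Finset.mem_union_left _ (Finset.mem_inter.mp hp).1)
          exact hok a ha hne
        · intro p hp q hq hpq
          refine ⟨key p hp q hq hpq, fun h => key q hq p hp hpq.symm ?_⟩
          have := h.neg (d' := dR q p) (fun r _ => dR_neg p q r)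
          simpa using this
      have e1 := ih (c + 1) (by omega) _ hP
      have e2 := ih c hc0 _ hD
      have e3 := gb_rec m c hc0
      omega

/-- The state of the edge `e = (i, S, j)` at the vertex `p`: it starts at `i`, ends at `j`, passes
above the vertices in `S` and below the other ones between `i` and `j`. -/
def se (e : ℕ × Finset ℕ × ℕ) (p : ℕ) : ℤ :=
  if p = e.1 ∨ p = e.2.2 then 0 else if p ∈ e.2.1 then 1 else -1

theorem se_above {e : ℕ × Finset ℕ × ℕ} {p : ℕ} (h1 : e.1 < p) (h2 : p < e.2.2)
    (h3 : p ∈ e.2.1) : se e p = 1 := by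
  unfold se
  rw [if_neg (by omega), if_pos h3]

theorem se_below {e : ℕ × Finset ℕ × ℕ} {p : ℕ} (h1 : e.1 < p) (h2 : p < e.2.2)
    (h3 : p ∉ e.2.1) : se e p = -1 := by
  unfold se
  rw [if_neg (by omega), if_neg h3]

/-- Comparison of two edges at a vertex in the common span. -/
def dE (e f : ℕ × Finset ℕ × ℕ) (p : ℕ) : ℤ :=
  if e.1 ≤ p ∧ f.1 ≤ p ∧ p ≤ e.2.2 ∧ p ≤ f.2.2 then se e p - se f p else 0

theorem dE_neg (a b : ℕ × Finset ℕ × ℕ) (p : ℕ) : dE b a p = - dE a b p := by
  unfold dE
  by_cases h : a.1 ≤ p ∧ b.1 ≤ p ∧ p ≤ a.2.2 ∧ p ≤ b.2.2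
  · rw [if_pos h, if_pos (by tauto)]; ring
  · rw [if_neg h, if_neg (by tauto)]; ring

/-- Valid codes of edges on the vertices `0, …, n - 1`. -/
def EdgeOK (n : ℕ) (e : ℕ × Finset ℕ × ℕ) : Prop :=
  e.1 < e.2.2 ∧ e.2.2 < n ∧ ∀ p ∈ e.2.1, e.1 < p ∧ p < e.2.2

/-- No alternating chain of length `c` for two different members. -/
def EdgeFam (n c : ℕ) (F : Finset (ℕ × Finset ℕ × ℕ)) : Prop :=
  (∀ a ∈ F, EdgeOK n a) ∧
    ∀ a ∈ F, ∀ b ∈ F, a ≠ b → ¬ Ch (dE a b) c n 1 ∧ ¬ Ch (dE a b) c n (-1)

/-- Bound for families of edges (`c ≥ 1`). -/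
def fb : ℕ → ℕ → ℕ
  | 0, _ => 0
  | 1, _ => 0
  | (n + 2), c => fb (n + 1) (c) + 2 * gb n (c - 1) + 1

theorem fb_closed (c : ℕ) (hc : 1 ≤ c) : ∀ n : ℕ,
    fb (n + 2) (c + 1) + n = 4 * (∑ t ∈ range c, n.choose (t + 1)) + 1
  | 0 => by
    simp [fb, gb]
  | (n + 1) => by
    have h1 := fb_closed c hc n
    have h2 := gb_succ n c hc
    have h3 : fb (n + 1 + 2) (c + 1) = fb (n + 2) (c + 1) + 2 * gb (n + 1) c + 1 := by
      simp [fb]
    have h4 : ∑ t ∈ range c, (n + 1).choose (t + 1) =
        ∑ t ∈ range c, n.choose (t + 1) + ∑ t ∈ range c, n.choose t := by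
      rw [← Finset.sum_add_distrib]
      apply Finset.sum_congr rfl
      intro t _
      rw [Nat.choose_succ_succ]
      ring
    rw [h3, h4]
    omega

/-- Replace the last two vertices `N`, `N + 1` by `N`. -/
def toRay (N : ℕ) (e : ℕ × Finset ℕ × ℕ) : ℕ × Finset ℕ := (e.1, e.2.1.erase N)

theorem edge_bound (c : ℕ) (hc : 1 ≤ c) : ∀ (n : ℕ) (F : Finset (ℕ × Finset ℕ × ℕ)),
    EdgeFam n (c + 1) F → F.card ≤ fb n (c + 1) := by
  intro n
  induction n with
  | zero =>
    intro F hF
    have : F = ∅ := by
      by_contra h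
      obtain ⟨a, ha⟩ := Finset.nonempty_iff_ne_empty.mpr h
      have := (hF.1 a ha).2.1
      omega
    subst this
    simp
  | succ n ih =>
    rcases n with _ | N
    · intro F hF
      have : F = ∅ := by
        by_contra h
        obtain ⟨a, ha⟩ := Finset.nonempty_iff_ne_empty.mpr h
        have := (hF.1 a ha).1
        have := (hF.1 a ha).2.1
        omega
      subst this
      simp
    intro F hF
    classical
    -- the edge from `N` to `N + 1`
    let F0 := F.filter (fun e => e.1 = N)
    let F1 := F.filter (fun e => e.1 ≠ N)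
    have hF0 : F0.card ≤ 1 := by
      rw [Finset.card_le_one]
      intro a ha b hb
      simp only [F0, Finset.mem_filter] at ha hb
      have e : ∀ a ∈ F, a.1 = N → a.2.1 = ∅ ∧ a.2.2 = N + 1 := by
        intro a ha h
        have h1 := hF.1 a ha
        obtain ⟨h2, h3, h4⟩ := h1
        have h5 : a.2.2 = N + 1 := by omega
        refine ⟨?_, h5⟩
        by_contra hne
        obtain ⟨p, hp⟩ := Finset.nonempty_iff_ne_empty.mpr hne
        have := h4 p hp
        omega
      obtain ⟨a1, a2⟩ := e a ha.1 ha.2
      obtain ⟨b1, b2⟩ := e b hb.1 hb.2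
      exact Prod.ext (ha.2.trans hb.2.symm) (Prod.ext (a1.trans b1.symm) (a2.trans b2.symm))
    have hsplit : F.card = F0.card + F1.card :=
      (Finset.card_filter_add_card_filter_not (s := F) (fun a => a.1 = N)).symm
    have hF1lt : ∀ e ∈ F1, e ∈ F ∧ e.1 < N := by
      intro e he
      simp only [F1, Finset.mem_filter] at he
      have h1 := hF.1 e he.1
      obtain ⟨h2, h3, h4⟩ := h1
      exact ⟨he.1, by omega⟩
    let L := F1.filter (fun e => e.2.2 < N)
    let A := F1.filter (fun e => e.2.2 = N)
    let B := F1.filter (fun e => e.2.2 = N + 1 ∧ N ∈ e.2.1)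
    let C := F1.filter (fun e => e.2.2 = N + 1 ∧ N ∉ e.2.1)
    have hF1card : F1.card = L.card + A.card + B.card + C.card := by
      have hU : F1 = L ∪ A ∪ B ∪ C := by
        ext e
        simp only [L, A, B, C, Finset.mem_union, Finset.mem_filter]
        constructor
        · intro he
          have h1 := hF.1 e (hF1lt e he).1
          obtain ⟨h2, h3, h4⟩ := h1
          by_cases h5 : N ∈ e.2.1
          · have := h4 N h5
            have h6 : e.2.2 = N + 1 := by omega
            exact Or.inl (Or.inr ⟨he, h6, h5⟩)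
          · have h6 : e.2.2 < N ∨ e.2.2 = N ∨ e.2.2 = N + 1 := by omega
            tauto
        · tauto
      have d1 : Disjoint (L ∪ A ∪ B) C := by
        rw [Finset.disjoint_left]
        intro e h1 h2
        simp only [L, A, B, C, Finset.mem_union, Finset.mem_filter] at h1 h2
        rcases h1 with (h1 | h1) | h1
        · omega
        · omega
        · exact h2.2.2 h1.2.2
      have d2 : Disjoint (L ∪ A) B := by
        rw [Finset.disjoint_left]
        intro e h1 h2
        simp only [L, A, B, Finset.mem_union, Finset.mem_filter] at h1 h2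
        omega
      have d3 : Disjoint L A := by
        rw [Finset.disjoint_left]
        intro e h1 h2
        simp only [L, A, Finset.mem_filter] at h1 h2
        omega
      conv_lhs => rw [hU]
      rw [Finset.card_union_of_disjoint d1, Finset.card_union_of_disjoint d2,
        Finset.card_union_of_disjoint d3]
    let a' := A.image (toRay N)
    let b' := B.image (toRay N)
    let c' := C.image (toRay N)
    have hNA : ∀ e ∈ A, N ∉ e.2.1 := by
      intro e he hN
      simp only [A, Finset.mem_filter] at he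
      have h1 := (hF.1 e (hF1lt e he.1).1).2.2 N hN
      omega
    have ca : a'.card = A.card := by
      apply Finset.card_image_of_injOn
      intro e he f hf hef
      have h1 := hNA e (by simpa using he)
      have h2 := hNA f (by simpa using hf)
      simp only [A, Finset.coe_filter, Set.mem_ofPred_eq] at he hf
      simp only [toRay, Prod.mk.injEq, Finset.erase_eq_of_notMem h1,
        Finset.erase_eq_of_notMem h2] at hef
      exact Prod.ext hef.1 (Prod.ext hef.2 (he.2.trans hf.2.symm))
    have cb : b'.card = B.card := by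
      apply Finset.card_image_of_injOn
      intro e he f hf hef
      simp only [B, Finset.coe_filter, Set.mem_ofPred_eq] at he hf
      simp only [toRay, Prod.mk.injEq] at hef
      refine Prod.ext hef.1 (Prod.ext ?_ (he.2.1.trans hf.2.1.symm))
      rw [← Finset.insert_erase he.2.2, ← Finset.insert_erase hf.2.2, hef.2]
    have cc : c'.card = C.card := by
      apply Finset.card_image_of_injOn
      intro e he f hf hef
      simp only [C, Finset.coe_filter, Set.mem_ofPred_eq] at he hf
      simp only [toRay, Prod.mk.injEq, Finset.erase_eq_of_notMem he.2.2,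
        Finset.erase_eq_of_notMem hf.2.2] at hef
      exact Prod.ext hef.1 (Prod.ext hef.2 (he.2.1.trans hf.2.1.symm))
    -- the projected family
    let R := a' ∪ b' ∪ c'
    let P := L ∪ R.image (fun r => (r.1, r.2, N))
    have hRimg : (R.image (fun r : ℕ × Finset ℕ => (r.1, r.2, N))).card = R.card := by
      apply Finset.card_image_of_injective
      intro r r' h
      simp only [Prod.mk.injEq] at h
      exact Prod.ext h.1 h.2.1
    have hPcard : P.card = L.card + R.card := by
      rw [← hRimg]
      apply Finset.card_union_of_disjoint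
      rw [Finset.disjoint_left]
      intro e h1 h2
      simp only [L, Finset.mem_filter] at h1
      obtain ⟨r, -, rfl⟩ := Finset.mem_image.mp h2
      simp only at h1
      omega
    have hcount : A.card + B.card + C.card =
        R.card + (a' ∩ b').card + ((a' ∪ b') ∩ c').card := by
      have h1 := Finset.card_union_add_card_inter a' b'
      have h2 := Finset.card_union_add_card_inter (a' ∪ b') c'
      have h3 : R.card = (a' ∪ b' ∪ c').card := rfl
      omega
    -- preimages
    have hRmem : ∀ r ∈ R, ∃ e ∈ F, e.1 < N ∧ N ≤ e.2.2 ∧ toRay N e = r := by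
      intro r hr
      have : r ∈ a' ∨ r ∈ b' ∨ r ∈ c' := by
        simp only [R, Finset.mem_union] at hr
        tauto
      rcases this with h | h | h
      all_goals
        obtain ⟨e, he, rfl⟩ := Finset.mem_image.mp h
        first
          | (simp only [A, Finset.mem_filter] at he
             exact ⟨e, (hF1lt e he.1).1, (hF1lt e he.1).2, by omega, rfl⟩)
          | (simp only [B, Finset.mem_filter] at he
             exact ⟨e, (hF1lt e he.1).1, (hF1lt e he.1).2, by omega, rfl⟩)
          | (simp only [C, Finset.mem_filter] at he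
             exact ⟨e, (hF1lt e he.1).1, (hF1lt e he.1).2, by omega, rfl⟩)
    have hrayok : ∀ e ∈ F, e.1 < N → RayOK N (toRay N e) := by
      intro e he h
      refine ⟨h, ?_⟩
      intro p hp
      simp only [toRay, Finset.mem_erase] at hp ⊢
      have := (hF.1 e he).2.2 p hp.2
      have := (hF.1 e he).2.1
      omega
    -- every member of `P` comes from a member of `F` with the same states before `N`
    have hPmem : ∀ x ∈ P, ∃ e ∈ F, e.1 < N ∧ x.1 = e.1 ∧
        ((x = e ∧ e.2.2 < N) ∨ (N ≤ e.2.2 ∧ x = (e.1, e.2.1.erase N, N))) := by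
      intro x hx
      rcases Finset.mem_union.mp hx with h | h
      · simp only [L, Finset.mem_filter] at h
        exact ⟨x, (hF1lt x h.1).1, (hF1lt x h.1).2, rfl, Or.inl ⟨rfl, h.2⟩⟩
      · obtain ⟨r, hr, rfl⟩ := Finset.mem_image.mp h
        obtain ⟨e, he, h1, h2, rfl⟩ := hRmem r hr
        exact ⟨e, he, h1, rfl, Or.inr ⟨h2, rfl⟩⟩
    have hse : ∀ x ∈ P, ∀ e : ℕ × Finset ℕ × ℕ, x.1 = e.1 →
        ((x = e ∧ e.2.2 < N) ∨ (N ≤ e.2.2 ∧ x = (e.1, e.2.1.erase N, N))) →
        ∀ p < N, (p ≤ x.2.2 ↔ p ≤ e.2.2) ∧ (p ≤ e.2.2 → se x p = se e p) := by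
      intro x _ e _ hxe p hp
      rcases hxe with ⟨rfl, _⟩ | ⟨h2, rfl⟩
      · simp
      · refine ⟨by simp only; omega, fun _ => ?_⟩
        simp only [se, Finset.mem_erase]
        have h3 : p ≠ N := by omega
        have h4 : p ≠ e.2.2 := by omega
        simp only [h3, h4, ne_eq, not_false_eq_true, true_and, or_false]
    have hP : EdgeFam (N + 1) (c + 1) P := by
      refine ⟨?_, ?_⟩
      · intro x hx
        obtain ⟨e, he, h1, h2, h3⟩ := hPmem x hx
        obtain ⟨g1, g2, g3⟩ := hF.1 e he
        rcases h3 with ⟨rfl, h4⟩ | ⟨h4, rfl⟩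
        · exact ⟨g1, by omega, g3⟩
        · refine ⟨h1, Nat.lt_succ_self N, ?_⟩
          intro p hp
          simp only [Finset.mem_erase] at hp ⊢
          have := g3 p hp.2
          omega
      · have key : ∀ x ∈ P, ∀ y ∈ P, x ≠ y → ∀ s : ℤ, (s = 1 ∨ s = -1) →
            ¬ Ch (dE x y) (c + 1) (N + 1) s := by
          intro x hx y hy hxy s hs hch
          obtain ⟨e, he, e1, e2, e3⟩ := hPmem x hx
          obtain ⟨f, hf, f1, f2, f3⟩ := hPmem y hy
          have hef : e ≠ f := by
            rintro rfl
            rcases e3 with ⟨rfl, h4⟩ | ⟨h4, rfl⟩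
            · rcases f3 with ⟨rfl, h5⟩ | ⟨h5, rfl⟩
              · exact hxy rfl
              · omega
            · rcases f3 with ⟨rfl, h5⟩ | ⟨h5, rfl⟩
              · omega
              · exact hxy rfl
          have hd : ∀ p < N, dE x y p = dE e f p := by
            intro p hp
            obtain ⟨x1, x2⟩ := hse x hx e e2 e3 p hp
            obtain ⟨y1, y2⟩ := hse y hy f f2 f3 p hp
            simp only [dE]
            by_cases h : e.1 ≤ p ∧ f.1 ≤ p ∧ p ≤ e.2.2 ∧ p ≤ f.2.2
            · rw [if_pos h, if_pos (by rw [e2, f2, x1, y1]; exact h), x2 h.2.2.1, y2 h.2.2.2]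
            · rw [if_neg h, if_neg (by rw [e2, f2, x1, y1]; exact h)]
          -- the comparison at `N` is undetermined
          have hN0 : dE x y N = 0 := by
            simp only [dE]
            by_cases h : x.1 ≤ N ∧ y.1 ≤ N ∧ N ≤ x.2.2 ∧ N ≤ y.2.2
            · rw [if_pos h]
              have hx2 : x.2.2 = N := by
                rcases e3 with ⟨rfl, h4⟩ | ⟨h4, rfl⟩
                · omega
                · rfl
              have hy2 : y.2.2 = N := by
                rcases f3 with ⟨rfl, h4⟩ | ⟨h4, rfl⟩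
                · omega
                · rfl
              simp [se, hx2, hy2]
            · rw [if_neg h]
          have hch' : Ch (dE e f) (c + 1) (N + 2) s := by
            obtain ⟨p, hp, hp2, hp3⟩ := hch
            have hpN : p < N := by
              rcases Nat.lt_succ_iff_lt_or_eq.mp hp with h | h
              · exact h
              · subst h
                rw [hN0] at hp2
                simp at hp2
            exact ⟨p, by omega, by rw [← hd p hpN]; exact hp2,
              hp3.congr (fun q hq => hd q (by omega))⟩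
          rcases hs with rfl | rfl
          · exact (hF.2 e he f hf hef).1 hch'
          · exact (hF.2 e he f hf hef).2 hch'
        intro x hx y hy hxy
        exact ⟨key x hx y hy hxy 1 (Or.inl rfl), key x hx y hy hxy (-1) (Or.inr rfl)⟩
    -- comparison of rays and edges before `N`
    have hdR : ∀ e f : ℕ × Finset ℕ × ℕ, N ≤ e.2.2 → N ≤ f.2.2 → ∀ p < N,
        dR (toRay N e) (toRay N f) p = dE e f p := by
      intro e f he hf p hp
      have h3 : p ≠ N := by omega
      have h4 : p ≠ e.2.2 := by omega
      have h5 : p ≠ f.2.2 := by omega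
      simp only [dR, dE, toRay, st, se, Finset.mem_erase, h3, h4, h5, ne_eq, not_false_eq_true,
        true_and, or_false]
      by_cases h : e.1 ≤ p ∧ f.1 ≤ p
      · have h' : e.1 ≤ p ∧ f.1 ≤ p ∧ p ≤ e.2.2 ∧ p ≤ f.2.2 :=
          ⟨h.1, h.2, by omega, by omega⟩
        rw [if_pos h, if_pos h']
      · rw [if_neg h, if_neg (fun h' => h ⟨h'.1, h'.2.1⟩)]
    -- extension of a chain at the vertex `N`
    have ext : ∀ r r' : ℕ × Finset ℕ, ∀ e ∈ F, ∀ f ∈ F, N ≤ e.2.2 → N ≤ f.2.2 →
        toRay N e = r → toRay N f = r' → r ≠ r' → e.1 < N → f.1 < N →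
        se e N < se f N → ¬ Ch (dR r r') c N 1 := by
      intro r r' e he f hf h1 h2 hr hr' hne h3 h4 h5 hch
      have hef : e ≠ f := by
        rintro rfl
        exact hne (hr.symm.trans hr')
      refine (hF.2 e he f hf hef).2 ⟨N, by omega, ?_, ?_⟩
      · simp only [dE]
        rw [if_pos ⟨by omega, by omega, h1, h2⟩]
        linarith
      · rw [neg_neg]
        refine hch.congr (fun q hq => ?_)
        rw [← hr, ← hr']
        exact hdR e f h1 h2 q hq
    have famOf : ∀ Z : Finset (ℕ × Finset ℕ), Z ⊆ R →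
        (∀ r ∈ Z, ∀ r' ∈ Z, r ≠ r' → ¬ Ch (dR r r') c N 1) → RayFam N c Z := by
      intro Z hZ key
      refine ⟨?_, ?_⟩
      · intro r hr
        obtain ⟨e, he, h1, h2, rfl⟩ := hRmem r (hZ hr)
        exact hrayok e he h1
      · intro r hr r' hr' hne
        refine ⟨key r hr r' hr' hne, fun h => key r' hr' r hr hne.symm ?_⟩
        have := h.neg (d' := dR r' r) (fun q _ => dR_neg r r' q)
        simpa using this
    have memA : ∀ r ∈ a', ∃ e ∈ F, e.1 < N ∧ N ≤ e.2.2 ∧ toRay N e = r ∧ se e N = 0 := by
      intro r hr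
      obtain ⟨e, he, rfl⟩ := Finset.mem_image.mp hr
      simp only [A, Finset.mem_filter] at he
      refine ⟨e, (hF1lt e he.1).1, (hF1lt e he.1).2, by omega, rfl, ?_⟩
      simp [se, he.2]
    have memB : ∀ r ∈ b', ∃ e ∈ F, e.1 < N ∧ N ≤ e.2.2 ∧ toRay N e = r ∧ se e N = 1 := by
      intro r hr
      obtain ⟨e, he, rfl⟩ := Finset.mem_image.mp hr
      simp only [B, Finset.mem_filter] at he
      have h1 := (hF1lt e he.1).2
      refine ⟨e, (hF1lt e he.1).1, h1, by omega, rfl, ?_⟩
      simp only [se]
      rw [if_neg (by omega), if_pos he.2.2]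
    have memC : ∀ r ∈ c', ∃ e ∈ F, e.1 < N ∧ N ≤ e.2.2 ∧ toRay N e = r ∧ se e N = -1 := by
      intro r hr
      obtain ⟨e, he, rfl⟩ := Finset.mem_image.mp hr
      simp only [C, Finset.mem_filter] at he
      have h1 := (hF1lt e he.1).2
      refine ⟨e, (hF1lt e he.1).1, h1, by omega, rfl, ?_⟩
      simp only [se]
      rw [if_neg (by omega), if_neg he.2.2]
    have hY : RayFam N c (a' ∩ b') := by
      apply famOf
      · intro r hr
        simp only [R, Finset.mem_union]
        exact Or.inl (Or.inl (Finset.mem_inter.mp hr).1)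
      · intro r hr r' hr' hne
        obtain ⟨e, he, e1, e2, e3, e4⟩ := memA r (Finset.mem_inter.mp hr).1
        obtain ⟨f, hf, f1, f2, f3, f4⟩ := memB r' (Finset.mem_inter.mp hr').2
        exact ext r r' e he f hf e2 f2 e3 f3 hne e1 f1 (by rw [e4, f4]; norm_num)
    have hX : RayFam N c ((a' ∪ b') ∩ c') := by
      apply famOf
      · intro r hr
        simp only [R, Finset.mem_union]
        exact Or.inr (Finset.mem_inter.mp hr).2
      · intro r hr r' hr' hne
        obtain ⟨e, he, e1, e2, e3, e4⟩ := memC r (Finset.mem_inter.mp hr).2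
        rcases Finset.mem_union.mp (Finset.mem_inter.mp hr').1 with h | h
        · obtain ⟨f, hf, f1, f2, f3, f4⟩ := memA r' h
          exact ext r r' e he f hf e2 f2 e3 f3 hne e1 f1 (by rw [e4, f4]; norm_num)
        · obtain ⟨f, hf, f1, f2, f3, f4⟩ := memB r' h
          exact ext r r' e he f hf e2 f2 e3 f3 hne e1 f1 (by rw [e4, f4]; norm_num)
    have i1 := ih P hP
    have i2 := ray_bound N c hc _ hY
    have i3 := ray_bound N c hc _ hX
    have i4 : fb (N + 1 + 1) (c + 1) = fb (N + 1) (c + 1) + 2 * gb N c + 1 := by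
      simp [fb]
    omega

end Pool.Agent.R156.MonoComb
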