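import Pool.Agent.R156.MonoComb

/-!
# Monotone drawings of multigraphs: definitions and the reduction to codes
-/

set_option autoImplicit false

namespace Pool.Agent.R156.MonoGeom

open Set

/-- A drawing in the plane `ℝ × ℝ` of a multigraph with `n` vertices and `m` edges in which every
edge is an x-monotone curve.  The edge `e` joins the vertices `src e` and `tgt e`; it is drawn as the
curve `curve e` on the time interval `[0, 1]`. -/
structure MonotoneDrawing (n m : ℕ) where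
  /-- the position of a vertex -/
  pos : Fin n → ℝ × ℝ
  pos_injective : Function.Injective pos
  /-- the first endpoint of an edge -/
  src : Fin m → Fin n
  /-- the second endpoint of an edge -/
  tgt : Fin m → Fin n
  /-- the curve representing an edge -/
  curve : Fin m → ℝ → ℝ × ℝ
  continuousOn : ∀ e, ContinuousOn (curve e) (Icc 0 1)
  curve_zero : ∀ e, curve e 0 = pos (src e)
  curve_one : ∀ e, curve e 1 = pos (tgt e)
  /-- the interior of an edge contains no vertex -/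
  avoids : ∀ e, ∀ t ∈ Ioo (0 : ℝ) 1, ∀ v, curve e t ≠ pos v
  /-- every edge is x-monotone: it meets every vertical line in at most one point -/
  monotone : ∀ e, InjOn (fun t => (curve e t).1) (Icc 0 1)

/-- Two curves `γ`, `δ` on `[0, 1]` with the same starting point and the same end point are homotopic
in the complement of `S`, by a homotopy which fixes the two endpoints. -/
def Homotopic (S : Set (ℝ × ℝ)) (γ δ : ℝ → ℝ × ℝ) : Prop :=
  ∃ H : ℝ × ℝ → ℝ × ℝ, ContinuousOn H (Icc 0 1 ×ˢ Icc 0 1) ∧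
    (∀ t ∈ Icc (0 : ℝ) 1, H (0, t) = γ t) ∧ (∀ t ∈ Icc (0 : ℝ) 1, H (1, t) = δ t) ∧
    (∀ s ∈ Icc (0 : ℝ) 1, H (s, 0) = γ 0) ∧ (∀ s ∈ Icc (0 : ℝ) 1, H (s, 1) = γ 1) ∧
    ∀ s ∈ Icc (0 : ℝ) 1, ∀ t ∈ Icc (0 : ℝ) 1, H (s, t) ∉ S

namespace MonotoneDrawing

variable {n m : ℕ} (D : MonotoneDrawing n m)

/-- The positions of the vertices different from `v` and `w`. -/
def others (v w : Fin n) : Set (ℝ × ℝ) := D.pos '' {x | x ≠ v ∧ x ≠ w}

/-- No two parallel edges are homotopic in the complement of the other vertices (relative to their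
endpoints); if the two edges are given with opposite directions one of them is reversed. -/
def NonHomotopic : Prop :=
  ∀ e f : Fin m, e ≠ f →
    (D.src e = D.src f → D.tgt e = D.tgt f →
      ¬ Homotopic (D.others (D.src e) (D.tgt e)) (D.curve e) (D.curve f)) ∧
    (D.src e = D.tgt f → D.tgt e = D.src f →
      ¬ Homotopic (D.others (D.src e) (D.tgt e)) (D.curve e) (fun t => D.curve f (1 - t)))

/-- The crossings of two different edges `e`, `f`: the pairs `(s, t)` of interior times with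
`curve e s = curve f t`. -/
def crossings (e f : Fin m) : Set (ℝ × ℝ) :=
  {p | p.1 ∈ Ioo (0 : ℝ) 1 ∧ p.2 ∈ Ioo (0 : ℝ) 1 ∧ D.curve e p.1 = D.curve f p.2}

end MonotoneDrawing

/-- There is a monotone non-homotopic drawing of a multigraph with `n` vertices and `m` edges in
which every two different edges cross at most `k` times. -/
def Drawable (n k m : ℕ) : Prop :=
  ∃ D : MonotoneDrawing n m, D.NonHomotopic ∧ ∀ e f, e ≠ f → (D.crossings e f).encard ≤ k

/-! ### Monotone curves as graphs of functions -/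

/-- A continuous injective function on `[0, 1]` has a continuous inverse on its image. -/
theorem exists_inverse {f : ℝ → ℝ} (hf : ContinuousOn f (Icc 0 1)) (hi : InjOn f (Icc 0 1)) :
    ∃ g : ℝ → ℝ, ContinuousOn g (f '' Icc 0 1) ∧ (∀ t ∈ Icc (0 : ℝ) 1, g (f t) = t) ∧
      MapsTo g (f '' Icc 0 1) (Icc 0 1) := by
  classical
  let φ : Icc (0 : ℝ) 1 → ℝ := fun t => f t
  have hφ : Continuous φ := continuousOn_iff_continuous_domRestrict.mp hf
  have hinj : Function.Injective φ := fun a b h => Subtype.ext (hi a.2 b.2 h)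
  have hemb : Topology.IsClosedEmbedding φ := hφ.isClosedEmbedding hinj
  let h := hemb.isEmbedding.toHomeomorph
  have hrange : Set.range φ = f '' Icc 0 1 := by
    ext x
    simp only [φ, Set.mem_range, Subtype.exists, Set.mem_image, exists_prop]
  let g : ℝ → ℝ := fun x => if hx : x ∈ Set.range φ then ((h.symm ⟨x, hx⟩ : Icc (0 : ℝ) 1) : ℝ) else 0
  refine ⟨g, ?_, ?_, ?_⟩
  · rw [continuousOn_iff_continuous_domRestrict, ← hrange]
    have : (Set.domRestrict (Set.range φ) g) = fun x => ((h.symm x : Icc (0 : ℝ) 1) : ℝ) := by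
      funext x
      have hx := x.2
      simp only [Set.domRestrict_apply, g]
      rw [dif_pos hx]
    rw [this]
    exact continuous_subtype_val.comp h.symm.continuous
  · intro t ht
    have hx : f t ∈ Set.range φ := ⟨⟨t, ht⟩, rfl⟩
    simp only [g, dif_pos hx]
    have : h.symm ⟨f t, hx⟩ = ⟨t, ht⟩ := by
      rw [Homeomorph.symm_apply_eq]
      rfl
    rw [this]
  · rintro x hx
    rw [← hrange] at hx
    simp only [g, dif_pos hx]
    exact (h.symm ⟨x, hx⟩).2

/-- The edge `e` of the drawing is the graph of `Y` over the interval between the first coordinates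
of the vertices `l` and `r`. -/
structure IsGraph {n m : ℕ} (D : MonotoneDrawing n m) (e : Fin m) (l r : Fin n) (Y : ℝ → ℝ) :
    Prop where
  ends : (D.src e = l ∧ D.tgt e = r) ∨ (D.src e = r ∧ D.tgt e = l)
  lt : (D.pos l).1 < (D.pos r).1
  cont : ContinuousOn Y (Icc (D.pos l).1 (D.pos r).1)
  mem : ∀ t ∈ Icc (0 : ℝ) 1, (D.curve e t).1 ∈ Icc (D.pos l).1 (D.pos r).1
  val : ∀ t ∈ Icc (0 : ℝ) 1, Y (D.curve e t).1 = (D.curve e t).2
  surj : ∀ x ∈ Icc (D.pos l).1 (D.pos r).1, ∃ t ∈ Icc (0 : ℝ) 1, (D.curve e t).1 = x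

theorem exists_graph {n m : ℕ} (D : MonotoneDrawing n m) (e : Fin m) :
    ∃ l r Y, IsGraph D e l r Y := by
  have h0 : (0 : ℝ) ∈ Icc (0 : ℝ) 1 := ⟨le_rfl, zero_le_one⟩
  have h1 : (1 : ℝ) ∈ Icc (0 : ℝ) 1 := ⟨zero_le_one, le_rfl⟩
  have hf : ContinuousOn (fun t => (D.curve e t).1) (Icc 0 1) :=
    continuous_fst.comp_continuousOn (D.continuousOn e)
  have hf2 : ContinuousOn (fun t => (D.curve e t).2) (Icc 0 1) :=
    continuous_snd.comp_continuousOn (D.continuousOn e)
  have hi := D.monotone e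
  obtain ⟨g, hg1, hg2, hg3⟩ := exists_inverse hf hi
  rcases hf.strictMonoOn_of_injOn_Icc' (zero_le_one) hi with hm | hm
  · have himg : (fun t => (D.curve e t).1) '' Icc 0 1 =
        Icc (D.pos (D.src e)).1 (D.pos (D.tgt e)).1 := by
      apply Set.Subset.antisymm
      · rintro _ ⟨t, ht, rfl⟩
        have a := hm.monotoneOn h0 ht ht.1
        have b := hm.monotoneOn ht h1 ht.2
        simp only [D.curve_zero, D.curve_one] at a b
        exact ⟨a, b⟩
      · have := intermediate_value_Icc (zero_le_one) hf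
        simpa only [D.curve_zero, D.curve_one] using this
    refine ⟨D.src e, D.tgt e, fun x => (D.curve e (g x)).2, Or.inl ⟨rfl, rfl⟩, ?_, ?_, ?_, ?_, ?_⟩
    · have := hm h0 h1 zero_lt_one
      simpa only [D.curve_zero, D.curve_one] using this
    · rw [← himg]
      exact hf2.comp hg1 hg3
    · intro t ht
      rw [← himg]
      exact ⟨t, ht, rfl⟩
    · intro t ht
      simp only [hg2 t ht]
    · intro x hx
      rw [← himg] at hx
      exact hx
  · have himg : (fun t => (D.curve e t).1) '' Icc 0 1 =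
        Icc (D.pos (D.tgt e)).1 (D.pos (D.src e)).1 := by
      apply Set.Subset.antisymm
      · rintro _ ⟨t, ht, rfl⟩
        have a := hm.antitoneOn h0 ht ht.1
        have b := hm.antitoneOn ht h1 ht.2
        simp only [D.curve_zero, D.curve_one] at a b
        exact ⟨b, a⟩
      · have := intermediate_value_Icc' (zero_le_one) hf
        simpa only [D.curve_zero, D.curve_one] using this
    refine ⟨D.tgt e, D.src e, fun x => (D.curve e (g x)).2, Or.inr ⟨rfl, rfl⟩, ?_, ?_, ?_, ?_, ?_⟩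
    · have := hm h0 h1 zero_lt_one
      simpa only [D.curve_zero, D.curve_one] using this
    · rw [← himg]
      exact hf2.comp hg1 hg3
    · intro t ht
      rw [← himg]
      exact ⟨t, ht, rfl⟩
    · intro t ht
      simp only [hg2 t ht]
    · intro x hx
      rw [← himg] at hx
      exact hx

section rank

variable {n m : ℕ} (D : MonotoneDrawing n m)

/-- The lexicographic order of the vertices. -/
def Lx (v w : Fin n) : Prop :=
  (D.pos v).1 < (D.pos w).1 ∨ ((D.pos v).1 = (D.pos w).1 ∧ (D.pos v).2 < (D.pos w).2)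

theorem Lx.trans {u v w : Fin n} (h1 : Lx D u v) (h2 : Lx D v w) : Lx D u w := by
  unfold Lx at *
  rcases h1 with h1 | ⟨h1, h1'⟩ <;> rcases h2 with h2 | ⟨h2, h2'⟩
  · exact Or.inl (lt_trans h1 h2)
  · exact Or.inl (by rw [← h2]; exact h1)
  · exact Or.inl (by rw [h1]; exact h2)
  · exact Or.inr ⟨h1.trans h2, lt_trans h1' h2'⟩

theorem Lx.irrefl (v : Fin n) : ¬ Lx D v v := by
  unfold Lx
  simp

theorem Lx.total {v w : Fin n} (h : v ≠ w) : Lx D v w ∨ Lx D w v := by
  unfold Lx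
  rcases lt_trichotomy (D.pos v).1 (D.pos w).1 with h1 | h1 | h1
  · exact Or.inl (Or.inl h1)
  · rcases lt_trichotomy (D.pos v).2 (D.pos w).2 with h2 | h2 | h2
    · exact Or.inl (Or.inr ⟨h1, h2⟩)
    · exact absurd (D.pos_injective (Prod.ext h1 h2)) h
    · exact Or.inr (Or.inr ⟨h1.symm, h2⟩)
  · exact Or.inr (Or.inl h1)

open Classical in
/-- The number of vertices before `v`. -/
noncomputable def rank (v : Fin n) : ℕ := (Finset.univ.filter (fun w => Lx D w v)).card

theorem rank_lt (v : Fin n) : rank D v < n := by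
  classical
  unfold rank
  calc _ < (Finset.univ : Finset (Fin n)).card := by
        apply Finset.card_lt_card
        rw [Finset.ssubset_univ_iff]
        intro h
        have : v ∈ Finset.univ.filter (fun w => Lx D w v) := by rw [h]; exact Finset.mem_univ v
        exact Lx.irrefl D v (Finset.mem_filter.mp this).2
    _ = n := by simp

theorem rank_lt_of {v w : Fin n} (h : Lx D v w) : rank D v < rank D w := by
  classical
  unfold rank
  apply Finset.card_lt_card
  rw [Finset.ssubset_iff_of_subset]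
  · exact ⟨v, by simpa using h, by simpa using Lx.irrefl D v⟩
  · intro x hx
    simp only [Finset.mem_filter, Finset.mem_univ, true_and] at hx ⊢
    exact hx.trans D h

theorem rank_inj {v w : Fin n} (h : rank D v = rank D w) : v = w := by
  by_contra hne
  rcases Lx.total D hne with h1 | h1
  · exact absurd h (rank_lt_of D h1).ne
  · exact absurd h (rank_lt_of D h1).ne'

theorem lx_of_rank {v w : Fin n} (h : rank D v < rank D w) : Lx D v w := by
  have hne : v ≠ w := by
    rintro rfl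
    exact lt_irrefl _ h
  rcases Lx.total D hne with h1 | h1
  · exact h1
  · exact absurd (rank_lt_of D h1) (not_lt.mpr h.le)

theorem fst_le_of_rank {v w : Fin n} (h : rank D v ≤ rank D w) : (D.pos v).1 ≤ (D.pos w).1 := by
  rcases h.lt_or_eq with h | h
  · rcases lx_of_rank D h with h1 | ⟨h1, -⟩
    · exact h1.le
    · exact h1.le
  · rw [rank_inj D h]

theorem rank_surj {p : ℕ} (hp : p < n) : ∃ v, rank D v = p := by
  let φ : Fin n → Fin n := fun v => ⟨rank D v, rank_lt D v⟩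
  have hφ : Function.Injective φ := fun v w h => rank_inj D (congrArg Fin.val h)
  obtain ⟨v, hv⟩ := (Finite.injective_iff_surjective.mp hφ) ⟨p, hp⟩
  exact ⟨v, congrArg Fin.val hv⟩

end rank

section code

open Pool.Agent.R156.MonoComb

variable {n m : ℕ} (D : MonotoneDrawing n m)

open Classical in
/-- The code of a curve which is the graph of `Y` between `l` and `r`. -/
noncomputable def code (l r : Fin n) (Y : ℝ → ℝ) : ℕ × Finset ℕ × ℕ :=
  (rank D l,
    (Finset.univ.filter (fun v => rank D l < rank D v ∧ rank D v < rank D r ∧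
      (D.pos v).2 < Y (D.pos v).1)).image (rank D), rank D r)

variable {D}

theorem IsGraph.left {e : Fin m} {l r : Fin n} {Y : ℝ → ℝ} (h : IsGraph D e l r Y) :
    Y (D.pos l).1 = (D.pos l).2 := by
  rcases h.ends with ⟨h1, -⟩ | ⟨-, h1⟩
  · have := h.val 0 ⟨le_rfl, zero_le_one⟩
    rwa [D.curve_zero, h1] at this
  · have := h.val 1 ⟨zero_le_one, le_rfl⟩
    rwa [D.curve_one, h1] at this

theorem IsGraph.right {e : Fin m} {l r : Fin n} {Y : ℝ → ℝ} (h : IsGraph D e l r Y) :
    Y (D.pos r).1 = (D.pos r).2 := by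
  rcases h.ends with ⟨-, h1⟩ | ⟨h1, -⟩
  · have := h.val 1 ⟨zero_le_one, le_rfl⟩
    rwa [D.curve_one, h1] at this
  · have := h.val 0 ⟨le_rfl, zero_le_one⟩
    rwa [D.curve_zero, h1] at this

theorem IsGraph.ne {e : Fin m} {l r : Fin n} {Y : ℝ → ℝ} (h : IsGraph D e l r Y) {v : Fin n}
    (hl : v ≠ l) (hr : v ≠ r) (hv : (D.pos v).1 ∈ Icc (D.pos l).1 (D.pos r).1) :
    Y (D.pos v).1 ≠ (D.pos v).2 := by
  intro hY
  obtain ⟨t, ht, htx⟩ := h.surj _ hv
  have hval := h.val t ht
  rw [htx] at hval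
  have hpos : D.curve e t = D.pos v := Prod.ext htx (hval.symm.trans hY)
  have hv' : v ≠ D.src e ∧ v ≠ D.tgt e := by
    rcases h.ends with ⟨h1, h2⟩ | ⟨h1, h2⟩
    · rw [h1, h2]; exact ⟨hl, hr⟩
    · rw [h1, h2]; exact ⟨hr, hl⟩
  rcases ht.1.lt_or_eq with h0 | h0
  · rcases ht.2.lt_or_eq with h1 | h1
    · exact D.avoids e t ⟨h0, h1⟩ v hpos
    · rw [h1, D.curve_one] at hpos
      exact hv'.2 (D.pos_injective hpos).symm
  · rw [← h0, D.curve_zero] at hpos
    exact hv'.1 (D.pos_injective hpos).symm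

theorem IsGraph.rank_lt_rank {e : Fin m} {l r : Fin n} {Y : ℝ → ℝ} (h : IsGraph D e l r Y) :
    rank D l < rank D r := rank_lt_of D (Or.inl h.lt)

theorem IsGraph.edgeOK {e : Fin m} {l r : Fin n} {Y : ℝ → ℝ} (h : IsGraph D e l r Y) :
    EdgeOK n (code D l r Y) := by
  classical
  refine ⟨h.rank_lt_rank, rank_lt D r, ?_⟩
  intro p hp
  obtain ⟨v, hv, rfl⟩ := Finset.mem_image.mp hp
  simp only [Finset.mem_filter] at hv
  exact ⟨hv.2.1, hv.2.2.1⟩

/-- The three possible states of an edge at a vertex in its span. -/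
theorem IsGraph.state {e : Fin m} {l r : Fin n} {Y : ℝ → ℝ} (h : IsGraph D e l r Y) {v : Fin n}
    (h1 : rank D l ≤ rank D v) (h2 : rank D v ≤ rank D r) :
    (se (code D l r Y) (rank D v) = 0 ∧ Y (D.pos v).1 = (D.pos v).2) ∨
    (se (code D l r Y) (rank D v) = 1 ∧ (D.pos v).2 < Y (D.pos v).1) ∨
    (se (code D l r Y) (rank D v) = -1 ∧ Y (D.pos v).1 < (D.pos v).2) := by
  classical
  by_cases hl : v = l
  · subst hl
    left
    refine ⟨?_, h.left⟩
    simp [se, code]
  by_cases hr : v = r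
  · subst hr
    left
    refine ⟨?_, h.right⟩
    simp [se, code]
  have h1' : rank D l < rank D v := lt_of_le_of_ne h1 (fun e => hl (rank_inj D e).symm)
  have h2' : rank D v < rank D r := lt_of_le_of_ne h2 (fun e => hr (rank_inj D e))
  have hne := h.ne hl hr ⟨fst_le_of_rank D h1, fst_le_of_rank D h2⟩
  right
  by_cases hY : (D.pos v).2 < Y (D.pos v).1
  · left
    refine ⟨se_above h1' h2' ?_, hY⟩
    exact Finset.mem_image.mpr ⟨v, by simp [h1', h2', hY], rfl⟩
  · right
    refine ⟨se_below h1' h2' ?_, lt_of_le_of_ne (not_lt.mp hY) hne⟩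
    intro hmem
    obtain ⟨w, hw, hwv⟩ := Finset.mem_image.mp hmem
    have := rank_inj D hwv
    subst this
    simp only [Finset.mem_filter] at hw
    exact hY hw.2.2.2

theorem compare {e f : Fin m} {l r l' r' : Fin n} {Y Z : ℝ → ℝ} (he : IsGraph D e l r Y)
    (hf : IsGraph D f l' r' Z) {s : ℤ} (hs : s = 1 ∨ s = -1) {p : ℕ}
    (hp : 0 < s * dE (code D l r Y) (code D l' r' Z) p) :
    ∃ v, rank D v = p ∧ (D.pos v).1 ∈ Icc (D.pos l).1 (D.pos r).1 ∧
      (D.pos v).1 ∈ Icc (D.pos l').1 (D.pos r').1 ∧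
      0 < (s : ℝ) * (Y (D.pos v).1 - Z (D.pos v).1) := by
  unfold dE at hp
  by_cases hc : (code D l r Y).1 ≤ p ∧ (code D l' r' Z).1 ≤ p ∧ p ≤ (code D l r Y).2.2 ∧
      p ≤ (code D l' r' Z).2.2
  swap
  · rw [if_neg hc] at hp
    simp at hp
  rw [if_pos hc] at hp
  obtain ⟨c1, c2, c3, c4⟩ := hc
  have hpn : p < n := lt_of_le_of_lt c3 (rank_lt D r)
  obtain ⟨v, rfl⟩ := rank_surj D hpn
  have s1 := he.state (v := v) c1 c3
  have s2 := hf.state (v := v) c2 c4
  refine ⟨v, rfl, ⟨fst_le_of_rank D c1, fst_le_of_rank D c3⟩,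
    ⟨fst_le_of_rank D c2, fst_le_of_rank D c4⟩, ?_⟩
  rcases s1 with ⟨a1, a2⟩ | ⟨a1, a2⟩ | ⟨a1, a2⟩ <;> rcases s2 with ⟨b1, b2⟩ | ⟨b1, b2⟩ | ⟨b1, b2⟩ <;>
    rcases hs with rfl | rfl <;> rw [a1, b1] at hp <;>
    first
      | (exfalso; norm_num at hp; done)
      | (push_cast; linarith)

theorem crossings_of_chain {e f : Fin m} {l r l' r' : Fin n} {Y Z : ℝ → ℝ}
    (he : IsGraph D e l r Y) (hf : IsGraph D f l' r' Z) : ∀ (c N : ℕ) (s : ℤ),
    (s = 1 ∨ s = -1) → Ch (dE (code D l r Y) (code D l' r' Z)) (c + 1) N s →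
    ∃ v, rank D v < N ∧ (D.pos v).1 ∈ Icc (D.pos l).1 (D.pos r).1 ∧
      (D.pos v).1 ∈ Icc (D.pos l').1 (D.pos r').1 ∧
      0 < (s : ℝ) * (Y (D.pos v).1 - Z (D.pos v).1) ∧
      ∃ T : Finset ℝ, T.card = c ∧ ∀ x ∈ T, x < (D.pos v).1 ∧
        x ∈ Ioo (D.pos l).1 (D.pos r).1 ∧ x ∈ Ioo (D.pos l').1 (D.pos r').1 ∧ Y x = Z x := by
  intro c
  induction c with
  | zero =>
    rintro N s hs ⟨p, hp, hp2, -⟩
    obtain ⟨v, hv, h1, h2, h3⟩ := compare he hf hs hp2
    exact ⟨v, by omega, h1, h2, h3, ∅, rfl, by simp⟩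
  | succ c ih =>
    rintro N s hs ⟨p, hp, hp2, hp3⟩
    obtain ⟨v, hv, h1, h2, h3⟩ := compare he hf hs hp2
    have hs' : -s = 1 ∨ -s = -1 := by
      rcases hs with rfl | rfl
      · right; rfl
      · left; rfl
    obtain ⟨w, w1, w2, w3, w4, T, hT1, hT2⟩ := ih p (-s) hs' hp3
    have hle : (D.pos w).1 ≤ (D.pos v).1 := fst_le_of_rank D (by omega)
    have hlt : (D.pos w).1 < (D.pos v).1 := by
      rcases hle.lt_or_eq with h | h
      · exact h
      · rw [h] at w4
        push_cast at w4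
        linarith
    have hsub : Icc (D.pos w).1 (D.pos v).1 ⊆ Icc (D.pos l).1 (D.pos r).1 :=
      Icc_subset_Icc w2.1 h1.2
    have hsub' : Icc (D.pos w).1 (D.pos v).1 ⊆ Icc (D.pos l').1 (D.pos r').1 :=
      Icc_subset_Icc w3.1 h2.2
    have hcont : ContinuousOn (fun x => (s : ℝ) * (Y x - Z x)) (Icc (D.pos w).1 (D.pos v).1) :=
      continuousOn_const.mul ((he.cont.mono hsub).sub (hf.cont.mono hsub'))
    have hivt := intermediate_value_Ioo hle hcont
    have h0 : (0 : ℝ) ∈ Ioo ((s : ℝ) * (Y (D.pos w).1 - Z (D.pos w).1))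
        ((s : ℝ) * (Y (D.pos v).1 - Z (D.pos v).1)) := by
      refine ⟨?_, h3⟩
      push_cast at w4
      linarith
    obtain ⟨x, hx, hx0⟩ := hivt h0
    have hsne : (s : ℝ) ≠ 0 := by
      rcases hs with rfl | rfl <;> norm_num
    have hYZ : Y x = Z x := by
      rcases mul_eq_zero.mp hx0 with h | h
      · exact absurd h hsne
      · linarith
    refine ⟨v, by omega, h1, h2, h3, insert x T, ?_, ?_⟩
    · rw [Finset.card_insert_of_notMem, hT1]
      intro hxT
      exact absurd (hT2 x hxT).1 (not_lt.mpr hx.1.le)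
    · intro y hy
      rcases Finset.mem_insert.mp hy with rfl | hy
      · exact ⟨hx.2, ⟨lt_of_le_of_lt w2.1 hx.1, lt_of_lt_of_le hx.2 h1.2⟩,
          ⟨lt_of_le_of_lt w3.1 hx.1, lt_of_lt_of_le hx.2 h2.2⟩, hYZ⟩
      · obtain ⟨y1, y2⟩ := hT2 y hy
        exact ⟨lt_trans y1 hlt, y2⟩

/-- An interior point of the span is reached at an interior time. -/
theorem IsGraph.time {e : Fin m} {l r : Fin n} {Y : ℝ → ℝ} (h : IsGraph D e l r Y) {x : ℝ}
    (hx : x ∈ Ioo (D.pos l).1 (D.pos r).1) :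
    ∃ t ∈ Ioo (0 : ℝ) 1, D.curve e t = (x, Y x) := by
  obtain ⟨t, ht, htx⟩ := h.surj x ⟨hx.1.le, hx.2.le⟩
  have hval := h.val t ht
  rw [htx] at hval
  have hne0 : t ≠ 0 := by
    rintro rfl
    rw [D.curve_zero] at htx
    rcases h.ends with ⟨h1, -⟩ | ⟨h1, -⟩
    · rw [h1] at htx
      exact hx.1.ne htx
    · rw [h1] at htx
      exact hx.2.ne htx.symm
  have hne1 : t ≠ 1 := by
    rintro rfl
    rw [D.curve_one] at htx
    rcases h.ends with ⟨-, h1⟩ | ⟨-, h1⟩
    · rw [h1] at htx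
      exact hx.2.ne htx.symm
    · rw [h1] at htx
      exact hx.1.ne htx
  exact ⟨t, ⟨lt_of_le_of_ne ht.1 (Ne.symm hne0), lt_of_le_of_ne ht.2 hne1⟩,
    Prod.ext htx hval.symm⟩

theorem no_chain {e f : Fin m} {l r l' r' : Fin n} {Y Z : ℝ → ℝ} {k : ℕ}
    (he : IsGraph D e l r Y) (hf : IsGraph D f l' r' Z) (hk : (D.crossings e f).encard ≤ k)
    {N : ℕ} {s : ℤ} (hs : s = 1 ∨ s = -1) :
    ¬ Ch (dE (code D l r Y) (code D l' r' Z)) (k + 2) N s := by
  classical
  intro hch
  obtain ⟨v, -, -, -, -, T, hT1, hT2⟩ := crossings_of_chain he hf (k + 1) N s hs hch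
  have h1 : ∀ x ∈ T, ∃ p ∈ D.crossings e f, (D.curve e p.1).1 = x := by
    intro x hx
    obtain ⟨-, a, b, hYZ⟩ := hT2 x hx
    obtain ⟨t, ht, ht'⟩ := he.time a
    obtain ⟨u, hu, hu'⟩ := hf.time b
    refine ⟨(t, u), ⟨ht, hu, ?_⟩, by simp only [ht']⟩
    simp only
    rw [ht', hu', hYZ]
  choose! φ hφ1 hφ2 using h1
  have hinj : Set.InjOn φ (T : Set ℝ) := by
    intro x hx y hy hxy
    rw [← hφ2 x hx, ← hφ2 y hy, hxy]
  have h2 : ((T : Set ℝ)).encard ≤ (D.crossings e f).encard :=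
    Set.encard_le_encard_of_injOn (fun x hx => hφ1 x hx) hinj
  rw [Set.encard_coe_eq_coe_finsetCard, hT1] at h2
  have h3 := h2.trans hk
  have h4 : k + 1 ≤ k := by exact_mod_cast h3
  omega

end code

/-! ### Homotopies -/

theorem homotopic_of_graphs {S : Set (ℝ × ℝ)} {γ δ : ℝ → ℝ × ℝ} {a b : ℝ} {Y Z : ℝ → ℝ}
    (hγ : ContinuousOn γ (Icc 0 1)) (hδ : ContinuousOn δ (Icc 0 1))
    (hY : ContinuousOn Y (Icc a b)) (hZ : ContinuousOn Z (Icc a b))
    (h0 : γ 0 = δ 0) (h1 : γ 1 = δ 1)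
    (mγ : ∀ t ∈ Icc (0 : ℝ) 1, (γ t).1 ∈ Icc a b) (mδ : ∀ t ∈ Icc (0 : ℝ) 1, (δ t).1 ∈ Icc a b)
    (vγ : ∀ t ∈ Icc (0 : ℝ) 1, Y (γ t).1 = (γ t).2)
    (vδ : ∀ t ∈ Icc (0 : ℝ) 1, Z (δ t).1 = (δ t).2)
    (hS : ∀ q ∈ S, q.1 ∈ Icc a b → (q.2 < Y q.1 ∧ q.2 < Z q.1) ∨ (Y q.1 < q.2 ∧ Z q.1 < q.2)) :
    Homotopic S γ δ := by
  let X : ℝ × ℝ → ℝ := fun p => (1 - p.1) * (γ p.2).1 + p.1 * (δ p.2).1
  have hX : ContinuousOn X (Icc (0 : ℝ) 1 ×ˢ Icc (0 : ℝ) 1) := by
    have e1 : ContinuousOn (fun p : ℝ × ℝ => (γ p.2).1) (Icc (0 : ℝ) 1 ×ˢ Icc (0 : ℝ) 1) :=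
      (continuous_fst.comp_continuousOn hγ).comp continuous_snd.continuousOn (fun p hp => hp.2)
    have e2 : ContinuousOn (fun p : ℝ × ℝ => (δ p.2).1) (Icc (0 : ℝ) 1 ×ˢ Icc (0 : ℝ) 1) :=
      (continuous_fst.comp_continuousOn hδ).comp continuous_snd.continuousOn (fun p hp => hp.2)
    have e3 : ContinuousOn (fun p : ℝ × ℝ => p.1) (Icc (0 : ℝ) 1 ×ˢ Icc (0 : ℝ) 1) :=
      continuous_fst.continuousOn
    exact ((continuousOn_const.sub e3).mul e1).add (e3.mul e2)
  have hXm : MapsTo X (Icc (0 : ℝ) 1 ×ˢ Icc (0 : ℝ) 1) (Icc a b) := by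
    rintro ⟨s, t⟩ ⟨hs, ht⟩
    simp only at hs ht
    have g1 := mγ t ht
    have g2 := mδ t ht
    have hs0 := hs.1
    have hs1 : 0 ≤ 1 - s := by linarith [hs.2]
    constructor
    · simp only [X]
      nlinarith [mul_nonneg hs1 (sub_nonneg.mpr g1.1), mul_nonneg hs0 (sub_nonneg.mpr g2.1)]
    · simp only [X]
      nlinarith [mul_nonneg hs1 (sub_nonneg.mpr g1.2), mul_nonneg hs0 (sub_nonneg.mpr g2.2)]
  refine ⟨fun p => (X p, (1 - p.1) * Y (X p) + p.1 * Z (X p)), ?_, ?_, ?_, ?_, ?_, ?_⟩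
  · have e3 : ContinuousOn (fun p : ℝ × ℝ => p.1) (Icc (0 : ℝ) 1 ×ˢ Icc (0 : ℝ) 1) :=
      continuous_fst.continuousOn
    exact hX.prodMk (((continuousOn_const.sub e3).mul (hY.comp hX hXm)).add
      (e3.mul (hZ.comp hX hXm)))
  · intro t ht
    have : X (0, t) = (γ t).1 := by simp [X]
    simp only [this]
    refine Prod.ext rfl ?_
    simp only
    rw [vγ t ht]
    ring
  · intro t ht
    have : X (1, t) = (δ t).1 := by simp [X]
    simp only [this]
    refine Prod.ext rfl ?_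
    simp only
    rw [vδ t ht]
    ring
  · intro s hs
    have hX0 : X (s, 0) = (γ 0).1 := by
      simp only [X]
      rw [← h0]
      ring
    have e1 := vγ 0 ⟨le_rfl, zero_le_one⟩
    have e2 := vδ 0 ⟨le_rfl, zero_le_one⟩
    rw [← h0] at e2
    simp only [hX0, e1, e2]
    refine Prod.ext rfl ?_
    simp only
    ring
  · intro s hs
    have hX0 : X (s, 1) = (γ 1).1 := by
      simp only [X]
      rw [← h1]
      ring
    have e1 := vγ 1 ⟨zero_le_one, le_rfl⟩
    have e2 := vδ 1 ⟨zero_le_one, le_rfl⟩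
    rw [← h1] at e2
    simp only [hX0, e1, e2]
    refine Prod.ext rfl ?_
    simp only
    ring
  · intro s hs t ht hmem
    have hm := hXm (show (s, t) ∈ Icc (0 : ℝ) 1 ×ˢ Icc (0 : ℝ) 1 from ⟨hs, ht⟩)
    have := hS _ hmem hm
    simp only at this
    have hs0 := hs.1
    have hs1 : 0 ≤ 1 - s := by linarith [hs.2]
    set A := Y (X (s, t))
    set B := Z (X (s, t))
    rcases this with ⟨h2, h3⟩ | ⟨h2, h3⟩
    · rcases hs0.lt_or_eq with h | h
      · nlinarith [mul_nonneg hs1 (sub_nonneg.mpr h2.le), mul_pos h (sub_pos.mpr h3)]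
      · rw [← h] at h2
        linarith
    · rcases hs0.lt_or_eq with h | h
      · nlinarith [mul_nonneg hs1 (sub_nonneg.mpr h2.le), mul_pos h (sub_pos.mpr h3)]
      · rw [← h] at h2
        linarith

theorem others_sides {n m : ℕ} {D : MonotoneDrawing n m} {e f : Fin m} {l r : Fin n}
    {Y Z : ℝ → ℝ} (he : IsGraph D e l r Y) (hf : IsGraph D f l r Z)
    (hcode : code D l r Y = code D l r Z) :
    ∀ v : Fin n, v ≠ l → v ≠ r → (D.pos v).1 ∈ Icc (D.pos l).1 (D.pos r).1 →
      ((D.pos v).2 < Y (D.pos v).1 ∧ (D.pos v).2 < Z (D.pos v).1) ∨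
      (Y (D.pos v).1 < (D.pos v).2 ∧ Z (D.pos v).1 < (D.pos v).2) := by
  intro v hl hr hv
  have n1 := he.ne hl hr hv
  have n2 := hf.ne hl hr hv
  rcases hv.1.lt_or_eq with h1 | h1
  · rcases hv.2.lt_or_eq with h2 | h2
    · have r1 : rank D l < rank D v := rank_lt_of D (Or.inl h1)
      have r2 : rank D v < rank D r := rank_lt_of D (Or.inl h2)
      have s1 := he.state r1.le r2.le
      have s2 := hf.state r1.le r2.le
      rw [hcode] at s1
      rcases s1 with ⟨a1, a2⟩ | ⟨a1, a2⟩ | ⟨a1, a2⟩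
      · exact absurd a2 n1
      · rcases s2 with ⟨b1, b2⟩ | ⟨b1, b2⟩ | ⟨b1, b2⟩
        · exact absurd b2 n2
        · exact Or.inl ⟨a2, b2⟩
        · rw [a1] at b1
          norm_num at b1
      · rcases s2 with ⟨b1, b2⟩ | ⟨b1, b2⟩ | ⟨b1, b2⟩
        · exact absurd b2 n2
        · rw [a1] at b1
          norm_num at b1
        · exact Or.inr ⟨a2, b2⟩
    · have e1 : Y (D.pos v).1 = (D.pos r).2 := by rw [h2]; exact he.right
      have e2 : Z (D.pos v).1 = (D.pos r).2 := by rw [h2]; exact hf.right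
      rw [e1] at n1 ⊢
      rw [e2]
      rcases lt_or_gt_of_ne n1 with h | h
      · exact Or.inr ⟨h, h⟩
      · exact Or.inl ⟨h, h⟩
  · have e1 : Y (D.pos v).1 = (D.pos l).2 := by rw [← h1]; exact he.left
    have e2 : Z (D.pos v).1 = (D.pos l).2 := by rw [← h1]; exact hf.left
    rw [e1] at n1 ⊢
    rw [e2]
    rcases lt_or_gt_of_ne n1 with h | h
    · exact Or.inr ⟨h, h⟩
    · exact Or.inl ⟨h, h⟩

/-- In a non-homotopic drawing different edges have different codes. -/
theorem code_ne {n m : ℕ} {D : MonotoneDrawing n m} (hD : D.NonHomotopic) {e f : Fin m}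
    (hef : e ≠ f) {l r l' r' : Fin n} {Y Z : ℝ → ℝ} (he : IsGraph D e l r Y)
    (hf : IsGraph D f l' r' Z) : code D l r Y ≠ code D l' r' Z := by
  intro hcode
  have hl : l = l' := rank_inj D (congrArg Prod.fst hcode)
  have hr : r = r' := rank_inj D (congrArg (fun c => c.2.2) hcode)
  subst hl
  subst hr
  have hside := others_sides he hf hcode
  have hS : ∀ x y : Fin n, ((x = l ∧ y = r) ∨ (x = r ∧ y = l)) → ∀ q ∈ D.others x y,
      q.1 ∈ Icc (D.pos l).1 (D.pos r).1 →
      (q.2 < Y q.1 ∧ q.2 < Z q.1) ∨ (Y q.1 < q.2 ∧ Z q.1 < q.2) := by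
    rintro x y hxy q ⟨v, ⟨hv1, hv2⟩, rfl⟩ hq
    rcases hxy with ⟨rfl, rfl⟩ | ⟨rfl, rfl⟩
    · exact hside v hv1 hv2 hq
    · exact hside v hv2 hv1 hq
  have hS' := hS (D.src e) (D.tgt e) he.ends
  have hrev : ContinuousOn (fun t => D.curve f (1 - t)) (Icc 0 1) := by
    refine (D.continuousOn f).comp (continuousOn_const.sub continuousOn_id) ?_
    intro t ht
    simp only [Set.mem_Icc] at ht ⊢
    constructor <;> linarith [ht.1, ht.2]
  have hrt : ∀ t ∈ Icc (0 : ℝ) 1, 1 - t ∈ Icc (0 : ℝ) 1 := by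
    intro t ht
    constructor <;> linarith [ht.1, ht.2]
  obtain ⟨g1, g2⟩ := hD e f hef
  rcases he.ends with ⟨a1, a2⟩ | ⟨a1, a2⟩ <;> rcases hf.ends with ⟨b1, b2⟩ | ⟨b1, b2⟩
  · refine g1 (a1.trans b1.symm) (a2.trans b2.symm) ?_
    refine homotopic_of_graphs (D.continuousOn e) (D.continuousOn f) he.cont hf.cont ?_ ?_ he.mem
      hf.mem he.val hf.val hS'
    · rw [D.curve_zero, D.curve_zero, a1, b1]
    · rw [D.curve_one, D.curve_one, a2, b2]
  · refine g2 (a1.trans b2.symm) (a2.trans b1.symm) ?_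
    refine homotopic_of_graphs (D.continuousOn e) hrev he.cont hf.cont ?_ ?_ he.mem
      (fun t ht => hf.mem _ (hrt t ht)) he.val (fun t ht => hf.val _ (hrt t ht)) hS'
    · simp only [sub_zero]
      rw [D.curve_zero, D.curve_one, a1, b2]
    · simp only [sub_self]
      rw [D.curve_zero, D.curve_one, a2, b1]
  · refine g2 (a1.trans b2.symm) (a2.trans b1.symm) ?_
    refine homotopic_of_graphs (D.continuousOn e) hrev he.cont hf.cont ?_ ?_ he.mem
      (fun t ht => hf.mem _ (hrt t ht)) he.val (fun t ht => hf.val _ (hrt t ht)) hS'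
    · simp only [sub_zero]
      rw [D.curve_zero, D.curve_one, a1, b2]
    · simp only [sub_self]
      rw [D.curve_zero, D.curve_one, a2, b1]
  · refine g1 (a1.trans b1.symm) (a2.trans b2.symm) ?_
    refine homotopic_of_graphs (D.continuousOn e) (D.continuousOn f) he.cont hf.cont ?_ ?_ he.mem
      hf.mem he.val hf.val hS'
    · rw [D.curve_zero, D.curve_zero, a1, b1]
    · rw [D.curve_one, D.curve_one, a2, b2]

open Pool.Agent.R156.MonoComb in
theorem edges_le {n k m : ℕ} (h : Drawable n k m) : m ≤ fb n (k + 1 + 1) := by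
  classical
  obtain ⟨D, hD, hk⟩ := h
  choose l r Y hG using exists_graph D
  let F : Finset (ℕ × Finset ℕ × ℕ) := Finset.univ.image (fun e => code D (l e) (r e) (Y e))
  have hinj : Function.Injective (fun e => code D (l e) (r e) (Y e)) := by
    intro e f hef
    by_contra hne
    exact code_ne hD hne (hG e) (hG f) hef
  have hcard : F.card = m := by
    rw [Finset.card_image_of_injective _ hinj]
    simp
  have hF : EdgeFam n (k + 1 + 1) F := by
    refine ⟨?_, ?_⟩
    · intro a ha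
      obtain ⟨e, -, rfl⟩ := Finset.mem_image.mp ha
      exact (hG e).edgeOK
    · intro a ha b hb hab
      obtain ⟨e, -, rfl⟩ := Finset.mem_image.mp ha
      obtain ⟨f, -, rfl⟩ := Finset.mem_image.mp hb
      have hne : e ≠ f := fun h => hab (by rw [h])
      exact ⟨no_chain (hG e) (hG f) (hk e f hne) (Or.inl rfl),
        no_chain (hG e) (hG f) (hk e f hne) (Or.inr rfl)⟩
  rw [← hcard]
  exact edge_bound (k + 1) (by omega) n F hF

end Pool.Agent.R156.MonoGeom
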